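import Pool.Agent.Lib.MP_84ba36_lc.QSetC

set_option autoImplicit false

open Cardinal

/-- For any countable discrete alphabet `K` with at least two letters, the weak
Baumgartner statement for `K`-valued sequences, with maps that are only continuous on `A` (so also
the Lipschitz one), implies that every set `A` of at most `ℵ₁`
sequences is a Q-set: each subset of `A` is the trace on `A` of a countable union of closed sets. -/
theorem Pool.Agent.Results.MP_84ba36_lc.QSetsFromContinuous.result :
    ∀ (K : Type) [Countable K] [Nontrivial K] [TopologicalSpace K] [DiscreteTopology K],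
      (∀ A B : Set (ℕ → K),
        (∀ U : Set (ℕ → K), IsOpen U → U.Nonempty → #(A ∩ U : Set (ℕ → K)) = ℵ₁) →
        (∀ U : Set (ℕ → K), IsOpen U → U.Nonempty → #(B ∩ U : Set (ℕ → K)) = ℵ₁) →
        ∃ f : (ℕ → K) → (ℕ → K), ContinuousOn f A ∧ Set.InjOn f A ∧ Set.MapsTo f A B) →
      ∀ A : Set (ℕ → K), #A ≤ ℵ₁ → ∀ X ⊆ A,
        ∃ F : ℕ → Set (ℕ → K), (∀ n, IsClosed (F n)) ∧ X = A ∩ ⋃ n, F n :=
  fun _ _ _ _ _ h A hA X hX => Pool.Agent.Lib.MP_84ba36_lc.cqset_all h A hA X hX
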